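import Mathlib
import Pool.Agent.V11110.ABTwo
import Pool.Agent.V11110.ABTri

namespace Pool.Agent.Results.MP_ab18c1_co.Rainbow

open Pool.Agent.V11110.ABTwo

/-- Q1 holds for every edge-colouring of a finite complete graph on at least three vertices in
which all edges have different colours. -/
theorem result {V K : Type} [Finite V] (h3 : 3 ≤ Nat.card V) (c : V → V → K)
    (hc : IsColouring c) (hall : ∀ j : K, ∃ x y, x ≠ y ∧ c x y = j) (hR : IsRainbow c) :
    Holds c := by
  rcases h3.eq_or_lt with h | h
  · exact Pool.Agent.V11110.ABTri.rainbow_three h.symm c hc hall hR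
  · exact rainbow_four h c hc hall hR

end Pool.Agent.Results.MP_ab18c1_co.Rainbow
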