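import Mathlib
import Pool.Agent.V11110.ABTwo

namespace Pool.Agent.Results.MP_ab18c1_co.TwoConnected

open Pool.Agent.V11110.ABTwo

/-- Q1 holds for every edge-colouring `c` of a finite complete graph on at least two vertices,
with any number of colours all of which are used, such that for some colour `i` no two twins
are joined by an edge of colour `i`, and for some colour `j` the graph of the edges of colour
other than `j` stays connected after deleting any at most one vertex and is rigid at the pairs of
vertices separating it. -/
theorem result {V K : Type} [Finite V] [Nontrivial V] (c : V → V → K) (hc : IsColouring c)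
    (hall : ∀ j : K, ∃ x y, x ≠ y ∧ c x y = j) (ht : ∃ i : K, NoTwins c i)
    (hj : ∃ j : K, IsConnectedOff c j ∧ IsRigidOff c j) :
    Holds c :=
  main c hc hall ht hj

end Pool.Agent.Results.MP_ab18c1_co.TwoConnected
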